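import Pool.Agent.N601.LP4.A

set_option autoImplicit false
open Finset
open scoped Classical

namespace Pool.Agent.N601.LP4

/-- A calculus fact. -/
lemma max_fun {p x : ℝ} (hp : 0 < p) (hx0 : 0 ≤ x) (hx1 : x ≤ 1) :
    x * (1 - x) ^ p ≤ 1 / (Real.exp 1 * p) := by
  have h1 : (1 - x) ^ p ≤ Real.exp (-(p * x)) := by
    have h := Real.rpow_le_rpow (by linarith) (Real.add_one_le_exp (-x)) hp.le
    rw [← Real.exp_mul] at h
    calc (1 - x) ^ p = (-x + 1) ^ p := by ring_nf
      _ ≤ Real.exp (-x * p) := h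
      _ = _ := by ring_nf
  have h2 : p * x ≤ Real.exp (p * x - 1) := by
    have := Real.add_one_le_exp (p * x - 1)
    linarith
  have h3 : x * Real.exp (-(p * x)) ≤ 1 / (Real.exp 1 * p) := by
    rw [le_div_iff₀ (by positivity)]
    have h4 : Real.exp (p * x - 1) * (Real.exp 1 * Real.exp (-(p * x))) = 1 := by
      rw [← Real.exp_add, ← Real.exp_add]
      ring_nf
      exact Real.exp_zero
    have h5 : (0 : ℝ) < Real.exp 1 * Real.exp (-(p * x)) := by positivity
    calc x * Real.exp (-(p * x)) * (Real.exp 1 * p)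
        = (p * x) * (Real.exp 1 * Real.exp (-(p * x))) := by ring
      _ ≤ Real.exp (p * x - 1) * (Real.exp 1 * Real.exp (-(p * x))) :=
          mul_le_mul_of_nonneg_right h2 h5.le
      _ = 1 := h4
  exact (mul_le_mul_of_nonneg_left h1 hx0).trans h3

/-- The mean value inequality for powers on `[0, 1]`. -/
lemma pow_add_le {p u D : ℝ} (hp : 1 ≤ p) (hu : 0 ≤ u) (hD0 : 0 ≤ D) (hD1 : D ≤ 1) {δ : ℝ}
    (hδ : 0 ≤ δ) (h : D ≤ u + δ) : D ^ p ≤ u ^ p + p * δ := by
  rcases le_total D u with hDu | hDu
  · have h1 : D ^ p ≤ u ^ p := Real.rpow_le_rpow hD0 hDu (by linarith)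
    have h2 : 0 ≤ p * δ := by positivity
    linarith
  · -- Bernoulli
    rcases eq_or_lt_of_le hD0 with h0 | h0
    · rw [← h0, Real.zero_rpow (by linarith)]
      positivity
    · have h1 : 1 + p * (u / D - 1) ≤ (1 + (u / D - 1)) ^ p :=
        one_add_mul_self_le_rpow_one_add (by
          have : 0 ≤ u / D := by positivity
          linarith) hp
      have h2 : (1 + (u / D - 1)) ^ p = u ^ p / D ^ p := by
        rw [show (1 : ℝ) + (u / D - 1) = u / D by ring, Real.div_rpow hu hD0]
      rw [h2] at h1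
      have hDp : 0 < D ^ p := Real.rpow_pos_of_pos h0 p
      have h3 : (1 + p * (u / D - 1)) * D ^ p ≤ u ^ p := by
        rw [le_div_iff₀ hDp] at h1
        exact h1
      have h4 : D ^ p ≤ D := by
        have := Real.rpow_le_rpow_of_exponent_ge h0 hD1 hp
        rwa [Real.rpow_one] at this
      have h5 : (D - u) * (D ^ p / D) ≤ δ * 1 := by
        refine mul_le_mul (by linarith) ?_ (by positivity) hδ
        rw [div_le_one h0]
        exact h4
      have h6 : (1 + p * (u / D - 1)) * D ^ p = D ^ p - p * ((D - u) * (D ^ p / D)) := by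
        field_simp
        ring
      rw [h6] at h3
      nlinarith

variable {V : Type} [Fintype V]

/-- The vertices of `B` joined to `a` in the graph of almost full pairs. -/
noncomputable def Ba (T : V → V → V → Prop) (m : ℝ) (B : Finset V) (a : V) : Finset V :=
  B.filter fun b => g T m a b

lemma cd_le {T : V → V → V → Prop} {m : ℝ} (B : Finset V) (a b : V) :
    (cd T a b : ℝ) ≤ Fintype.card V - ((Ba T m B a).card : ℝ) +
      (((Ba T m B a).filter fun b' => T a b b').card : ℝ) := by
  have h1 : (univ.filter fun z => T a b z) ⊆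
      (univ \ Ba T m B a) ∪ ((Ba T m B a).filter fun b' => T a b b') := by
    intro z hz
    rw [mem_filter] at hz
    rw [mem_union, mem_sdiff, mem_filter]
    by_cases h : z ∈ Ba T m B a
    · exact Or.inr ⟨h, hz.2⟩
    · exact Or.inl ⟨mem_univ _, h⟩
  have h2 := (Finset.card_le_card h1).trans (Finset.card_union_le _ _)
  have h3 : ((univ \ Ba T m B a).card : ℝ) = Fintype.card V - ((Ba T m B a).card : ℝ) := by
    rw [Finset.cast_card_sdiff (Finset.subset_univ _), Finset.card_univ]
  have h4 : (cd T a b : ℝ) ≤ ((univ \ Ba T m B a).card : ℝ) +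
      (((Ba T m B a).filter fun b' => T a b b').card : ℝ) := by
    unfold cd
    exact_mod_cast h2
  linarith

lemma sum_eps {T : V → V → V → Prop} (hT : K4Free T) {m : ℝ} (hm : 0 ≤ m) (B : Finset V) :
    ∑ a : V, ∑ b ∈ Ba T m B a, (((Ba T m B a).filter fun b' => T a b b').card : ℝ) ≤
      2 * m * (B.card : ℝ) ^ 2 := by
  have h1 : ∑ a : V, ∑ b ∈ Ba T m B a, (((Ba T m B a).filter fun b' => T a b b').card : ℝ) =
      ∑ a : V, ∑ b ∈ B, ∑ b' ∈ B, if (g T m a b ∧ g T m a b' ∧ T a b b') then (1 : ℝ) else 0 := by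
    refine Finset.sum_congr rfl fun a _ => ?_
    unfold Ba
    rw [Finset.sum_filter]
    refine Finset.sum_congr rfl fun b _ => ?_
    by_cases hg : g T m a b
    · rw [if_pos hg, Finset.filter_filter, Finset.sum_boole]
      congr 2
      ext b'
      simp [hg]
    · rw [if_neg hg]
      symm
      refine Finset.sum_eq_zero fun b' _ => ?_
      rw [if_neg]
      tauto
  rw [h1, Finset.sum_comm]
  have h2 : ∀ b ∈ B, ∑ a : V, ∑ b' ∈ B, (if (g T m a b ∧ g T m a b' ∧ T a b b') then (1 : ℝ) else 0)
      ≤ (B.card : ℝ) * (2 * m) := by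
    intro b _
    rw [Finset.sum_comm]
    calc _ ≤ ∑ _b' ∈ B, (2 * m) := Finset.sum_le_sum fun b' _ => by
            rw [Finset.sum_boole]
            exact card_CC hT hm b b'
      _ = _ := by rw [Finset.sum_const, nsmul_eq_mul]
  calc _ ≤ ∑ _b ∈ B, ((B.card : ℝ) * (2 * m)) := Finset.sum_le_sum h2
    _ = _ := by rw [Finset.sum_const, nsmul_eq_mul]; ring

/-- The almost full pairs with an end in `B`. -/
lemma sum_B {T : V → V → V → Prop} (hT : K4Free T) {m p : ℝ} (hm : 0 ≤ m) (hp : 1 ≤ p)
    (hn : 0 < (Fintype.card V : ℝ)) (B : Finset V) :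
    ∑ a : V, ∑ b ∈ Ba T m B a, ((cd T a b : ℝ) / Fintype.card V) ^ p ≤
      (Fintype.card V : ℝ) ^ 2 * (1 / (Real.exp 1 * p)) +
        p * (2 * m * (B.card : ℝ) ^ 2) / Fintype.card V := by
  set n : ℝ := (Fintype.card V : ℝ) with hnd
  have hpt : ∀ a b : V, ((cd T a b : ℝ) / n) ^ p ≤ (1 - ((Ba T m B a).card : ℝ) / n) ^ p +
      p * ((((Ba T m B a).filter fun b' => T a b b').card : ℝ) / n) := by
    intro a b
    have hcn : (cd T a b : ℝ) ≤ n := by
      have := cd_add_Ms T a b
      have h0 : (0 : ℝ) ≤ (Ms T a b).card := Nat.cast_nonneg _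
      linarith
    have hBn : ((Ba T m B a).card : ℝ) ≤ n := by
      rw [hnd]
      exact_mod_cast Finset.card_le_univ _
    refine pow_add_le hp ?_ (by positivity) ?_ (by positivity) ?_
    · rw [sub_nonneg, div_le_one hn]
      exact hBn
    · rw [div_le_one hn]
      exact hcn
    · have h := cd_le (T := T) (m := m) B a b
      have h2 : (cd T a b : ℝ) / n ≤ (n - ((Ba T m B a).card : ℝ) +
        (((Ba T m B a).filter fun b' => T a b b').card : ℝ)) / n := by
        gcongr
      refine h2.trans (le_of_eq ?_)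
      field_simp
  calc ∑ a : V, ∑ b ∈ Ba T m B a, ((cd T a b : ℝ) / n) ^ p
      ≤ ∑ a : V, ∑ b ∈ Ba T m B a, ((1 - ((Ba T m B a).card : ℝ) / n) ^ p +
      p * ((((Ba T m B a).filter fun b' => T a b b').card : ℝ) / n)) :=
        Finset.sum_le_sum fun a _ => Finset.sum_le_sum fun b _ => hpt a b
    _ = ∑ a : V, ((Ba T m B a).card : ℝ) * (1 - ((Ba T m B a).card : ℝ) / n) ^ p +
        p * (∑ a : V, ∑ b ∈ Ba T m B a, (((Ba T m B a).filter fun b' => T a b b').card : ℝ)) / n := by
        rw [Finset.mul_sum, Finset.sum_div, ← Finset.sum_add_distrib]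
        refine Finset.sum_congr rfl fun a _ => ?_
        rw [Finset.sum_add_distrib, Finset.sum_const, nsmul_eq_mul, Finset.mul_sum,
          Finset.sum_div]
        congr 1
        refine Finset.sum_congr rfl fun b _ => ?_
        ring
    _ ≤ ∑ _a : V, n * (1 / (Real.exp 1 * p)) + p * (2 * m * (B.card : ℝ) ^ 2) / n := by
        refine add_le_add (Finset.sum_le_sum fun a _ => ?_) ?_
        · have hBn : ((Ba T m B a).card : ℝ) ≤ n := by
            rw [hnd]
            exact_mod_cast Finset.card_le_univ _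
          have h := max_fun (p := p) (x := ((Ba T m B a).card : ℝ) / n) (by linarith)
            (by positivity) (by rw [div_le_one hn]; exact hBn)
          calc ((Ba T m B a).card : ℝ) * (1 - ((Ba T m B a).card : ℝ) / n) ^ p
              = n * (((Ba T m B a).card : ℝ) / n * (1 - ((Ba T m B a).card : ℝ) / n) ^ p) := by
                field_simp
            _ ≤ _ := mul_le_mul_of_nonneg_left h hn.le
        · have h := sum_eps hT hm B
          gcongr
    _ = _ := by
        rw [Finset.sum_const, nsmul_eq_mul, Finset.card_univ, ← hnd]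
        ring

end Pool.Agent.N601.LP4
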