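import Mathlib

/-!
# Pairs with almost full codegree in `K_4^3`-free 3-graphs

`V` is a finite set with `n` elements, `T x y z` says that `x, y, z` form an edge.
-/

set_option autoImplicit false
open Finset
open scoped Classical

namespace Pool.Agent.N601.LP4

/-- An abstract 3-graph without four vertices spanning all four triples. -/
structure K4Free {V : Type} (T : V → V → V → Prop) : Prop where
  swap : ∀ x y z, T x y z → T y x z
  rot : ∀ x y z, T x y z → T y z x
  irr : ∀ x z, ¬ T x x z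
  free : ∀ x y z w, T x y z → T x y w → T x z w → T y z w → False

variable {V : Type} [Fintype V]

/-- The codegree. -/
noncomputable def cd (T : V → V → V → Prop) (x y : V) : ℕ := (univ.filter fun z => T x y z).card

/-- The missing vertices of a pair. -/
noncomputable def Ms (T : V → V → V → Prop) (x y : V) : Finset V := univ.filter fun z => ¬ T x y z

lemma cd_add_Ms (T : V → V → V → Prop) (x y : V) :
    (cd T x y : ℝ) + ((Ms T x y).card : ℝ) = Fintype.card V := by
  have h := Finset.card_filter_add_card_filter_not (s := (univ : Finset V)) (fun z => T x y z)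
  rw [Finset.card_univ] at h
  unfold cd Ms
  exact_mod_cast h

lemma cd_comm {T : V → V → V → Prop} (hT : K4Free T) (x y : V) : cd T x y = cd T y x := by
  unfold cd
  congr 1
  ext z
  simp only [mem_filter, mem_univ, true_and]
  exact ⟨hT.swap x y z, hT.swap y x z⟩

/-- The pairs which miss fewer than `m` vertices. -/
def g (T : V → V → V → Prop) (m : ℝ) (x y : V) : Prop := ((Ms T x y).card : ℝ) < m

lemma Ms_comm {T : V → V → V → Prop} (hT : K4Free T) (x y : V) : Ms T x y = Ms T y x := by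
  unfold Ms
  ext z
  simp only [mem_filter, mem_univ, true_and]
  exact not_congr ⟨hT.swap x y z, hT.swap y x z⟩

lemma g_comm {T : V → V → V → Prop} (hT : K4Free T) (m : ℝ) {x y : V} (h : g T m x y) :
    g T m y x := by
  unfold g at *
  rwa [Ms_comm hT y x]

lemma g_ne {T : V → V → V → Prop} (hT : K4Free T) {m : ℝ} (hm : m ≤ Fintype.card V) {x y : V}
    (h : g T m x y) : x ≠ y := by
  rintro rfl
  unfold g at h
  have : Ms T x x = univ := by
    unfold Ms
    ext z
    simp [hT.irr x z]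
  rw [this, Finset.card_univ] at h
  linarith

/-- Of two almost full pairs one misses a vertex of the other. -/
lemma blocked {T : V → V → V → Prop} (hT : K4Free T) (x y z w : V) :
    z ∈ Ms T x y ∨ w ∈ Ms T x y ∨ x ∈ Ms T z w ∨ y ∈ Ms T z w := by
  by_contra h
  push Not at h
  obtain ⟨h1, h2, h3, h4⟩ := h
  simp only [Ms, mem_filter, mem_univ, true_and, not_not] at h1 h2 h3 h4
  exact hT.free x y z w h1 h2 (hT.rot _ _ _ (hT.rot _ _ _ h3)) (hT.rot _ _ _ (hT.rot _ _ _ h4))

/-- The almost full pairs inside `S`. -/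
noncomputable def GS (T : V → V → V → Prop) (m : ℝ) (S : Finset V) : Finset (V × V) :=
  (S ×ˢ S).filter fun e => g T m e.1 e.2

/-- Counting the pairs of almost full pairs. -/
lemma card_GS {T : V → V → V → Prop} (hT : K4Free T) {m Δ : ℝ} (hm : 0 ≤ m)
    (hΔ : 0 ≤ Δ) (S : Finset V) (hS : ∀ x ∈ S, ((S.filter fun y => g T m x y).card : ℝ) ≤ Δ) :
    ((GS T m S).card : ℝ) ≤ 4 * m * Δ := by
  set G := GS T m S with hG
  -- first coordinates
  have h1 : ∀ e ∈ G, ((G.filter fun f => f.1 ∈ Ms T e.1 e.2).card : ℝ) ≤ m * Δ := by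
    intro e he
    have hge : g T m e.1 e.2 := by
      rw [hG, GS, mem_filter] at he
      exact he.2
    have hsub : (G.filter fun f => f.1 ∈ Ms T e.1 e.2) ⊆
        ((Ms T e.1 e.2) ∩ S).biUnion fun z => (S.filter fun y => g T m z y).image fun y => (z, y) := by
      intro f hf
      rw [mem_filter] at hf
      obtain ⟨hf1, hf2⟩ := hf
      rw [hG, GS, mem_filter, mem_product] at hf1
      rw [mem_biUnion]
      refine ⟨f.1, mem_inter.mpr ⟨hf2, hf1.1.1⟩, ?_⟩
      rw [mem_image]
      exact ⟨f.2, mem_filter.mpr ⟨hf1.1.2, hf1.2⟩, rfl⟩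
    have hc : ((G.filter fun f => f.1 ∈ Ms T e.1 e.2).card : ℝ) ≤
        ∑ z ∈ (Ms T e.1 e.2) ∩ S, (((S.filter fun y => g T m z y).image fun y => (z, y)).card : ℝ) := by
      have := (Finset.card_le_card hsub).trans Finset.card_biUnion_le
      exact_mod_cast this
    refine hc.trans ?_
    calc ∑ z ∈ (Ms T e.1 e.2) ∩ S, (((S.filter fun y => g T m z y).image fun y => (z, y)).card : ℝ)
        ≤ ∑ _z ∈ (Ms T e.1 e.2) ∩ S, Δ := by
          refine Finset.sum_le_sum fun z hz => ?_
          have h' : (((S.filter fun y => g T m z y).image fun y => (z, y)).card : ℝ) ≤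
              ((S.filter fun y => g T m z y).card : ℝ) := by
            exact_mod_cast Finset.card_image_le
          exact h'.trans (hS z (mem_inter.mp hz).2)
      _ = (((Ms T e.1 e.2) ∩ S).card : ℝ) * Δ := by rw [Finset.sum_const, nsmul_eq_mul]
      _ ≤ m * Δ := by
          refine mul_le_mul_of_nonneg_right ?_ hΔ
          have h' : (((Ms T e.1 e.2) ∩ S).card : ℝ) ≤ ((Ms T e.1 e.2).card : ℝ) := by
            exact_mod_cast Finset.card_le_card Finset.inter_subset_left
          exact h'.trans hge.le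
  have h2 : ∀ e ∈ G, ((G.filter fun f => f.2 ∈ Ms T e.1 e.2).card : ℝ) ≤ m * Δ := by
    intro e he
    refine le_trans ?_ (h1 e he)
    have : (G.filter fun f => f.2 ∈ Ms T e.1 e.2) ⊆
        (G.filter fun f => f.1 ∈ Ms T e.1 e.2).image Prod.swap := by
      intro f hf
      rw [mem_filter] at hf
      rw [mem_image]
      refine ⟨f.swap, ?_, Prod.swap_swap f⟩
      rw [mem_filter]
      refine ⟨?_, hf.2⟩
      have hf1 := hf.1
      rw [hG, GS, mem_filter, mem_product] at hf1 ⊢
      exact ⟨⟨hf1.1.2, hf1.1.1⟩, g_comm hT m hf1.2⟩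
    exact_mod_cast (Finset.card_le_card this).trans Finset.card_image_le
  have hcount : ((G.card : ℝ)) * (G.card : ℝ) ≤ 2 * ∑ e ∈ G,
      (((G.filter fun f => f.1 ∈ Ms T e.1 e.2).card : ℝ) +
        ((G.filter fun f => f.2 ∈ Ms T e.1 e.2).card : ℝ)) := by
    have e2 : ((G.card : ℝ)) * (G.card : ℝ) = ∑ _e ∈ G, ∑ _f ∈ G, (1 : ℝ) := by
      simp
    set I : V × V → V × V → ℝ := fun e f =>
      (if f.1 ∈ Ms T e.1 e.2 then (1 : ℝ) else 0) + (if f.2 ∈ Ms T e.1 e.2 then (1 : ℝ) else 0)
      with hI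
    have e3 : ∑ e ∈ G, (((G.filter fun f => f.1 ∈ Ms T e.1 e.2).card : ℝ) +
        ((G.filter fun f => f.2 ∈ Ms T e.1 e.2).card : ℝ)) = ∑ e ∈ G, ∑ f ∈ G, I e f := by
      refine Finset.sum_congr rfl fun e _ => ?_
      rw [hI]
      simp only
      rw [Finset.sum_add_distrib, Finset.sum_boole, Finset.sum_boole]
    have e4 : ∑ e ∈ G, ∑ f ∈ G, I f e = ∑ e ∈ G, ∑ f ∈ G, I e f := Finset.sum_comm
    rw [e3, e2]
    have e5 : ∑ _e ∈ G, ∑ _f ∈ G, (1 : ℝ) ≤ ∑ e ∈ G, ∑ f ∈ G, (I e f + I f e) := by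
      refine Finset.sum_le_sum fun e _ => Finset.sum_le_sum fun f _ => ?_
      have hb := blocked hT e.1 e.2 f.1 f.2
      have n1 : (0 : ℝ) ≤ if f.1 ∈ Ms T e.1 e.2 then (1 : ℝ) else 0 := by split_ifs <;> norm_num
      have n2 : (0 : ℝ) ≤ if f.2 ∈ Ms T e.1 e.2 then (1 : ℝ) else 0 := by split_ifs <;> norm_num
      have n3 : (0 : ℝ) ≤ if e.1 ∈ Ms T f.1 f.2 then (1 : ℝ) else 0 := by split_ifs <;> norm_num
      have n4 : (0 : ℝ) ≤ if e.2 ∈ Ms T f.1 f.2 then (1 : ℝ) else 0 := by split_ifs <;> norm_num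
      rw [hI]
      simp only
      rcases hb with hb | hb | hb | hb
      · rw [if_pos hb]; linarith
      · rw [if_pos hb] at *; linarith
      · rw [if_pos hb] at *; linarith
      · rw [if_pos hb] at *; linarith
    have e6 : ∑ e ∈ G, ∑ f ∈ G, (I e f + I f e) = 2 * ∑ e ∈ G, ∑ f ∈ G, I e f := by
      have e7 : ∑ e ∈ G, ∑ f ∈ G, (I e f + I f e) =
          ∑ e ∈ G, ∑ f ∈ G, I e f + ∑ e ∈ G, ∑ f ∈ G, I f e := by
        rw [← Finset.sum_add_distrib]
        exact Finset.sum_congr rfl fun e _ => Finset.sum_add_distrib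
      rw [e7, e4]
      ring
    rw [← e6]
    exact e5
  have hb : ∑ e ∈ G, (((G.filter fun f => f.1 ∈ Ms T e.1 e.2).card : ℝ) +
        ((G.filter fun f => f.2 ∈ Ms T e.1 e.2).card : ℝ)) ≤ (G.card : ℝ) * (2 * (m * Δ)) := by
    calc _ ≤ ∑ _e ∈ G, (2 * (m * Δ)) := Finset.sum_le_sum fun e he => by
            have := h1 e he
            have := h2 e he
            linarith
      _ = _ := by rw [Finset.sum_const, nsmul_eq_mul]
  have hfin : ((G.card : ℝ)) * (G.card : ℝ) ≤ (G.card : ℝ) * (4 * m * Δ) := by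
    refine hcount.trans ?_
    nlinarith [hb]
  rcases Nat.eq_zero_or_pos G.card with h0 | h0
  · rw [h0]
    simp only [Nat.cast_zero]
    positivity
  · have : (0 : ℝ) < G.card := by exact_mod_cast h0
    exact le_of_mul_le_mul_left hfin this

/-- The common neighbours `a` of `b` and `b'` in the graph of almost full pairs which form an edge
with `b` and `b'`. -/
noncomputable def CC (T : V → V → V → Prop) (m : ℝ) (b b' : V) : Finset V :=
  univ.filter fun a => g T m a b ∧ g T m a b' ∧ T a b b'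

lemma card_CC {T : V → V → V → Prop} (hT : K4Free T) {m : ℝ} (hm : 0 ≤ m) (b b' : V) :
    ((CC T m b b').card : ℝ) ≤ 2 * m := by
  rcases (CC T m b b').eq_empty_or_nonempty with h | ⟨a, ha⟩
  · rw [h]
    simp only [card_empty, Nat.cast_zero]
    positivity
  · have ha' := (mem_filter.mp ha).2
    have hsub : CC T m b b' ⊆ Ms T a b ∪ Ms T a b' := by
      intro c hc
      have hc' := (mem_filter.mp hc).2
      by_contra hcon
      simp only [Ms, mem_union, mem_filter, mem_univ, true_and, not_or, not_not] at hcon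
      -- `T a b c`, `T a b' c`, `T a b b'`, `T c b b'`
      refine hT.free a b b' c ha'.2.2 hcon.1 hcon.2 ?_
      exact hT.rot _ _ _ hc'.2.2
    have h1 : ((CC T m b b').card : ℝ) ≤ ((Ms T a b).card : ℝ) + ((Ms T a b').card : ℝ) := by
      exact_mod_cast (Finset.card_le_card hsub).trans (Finset.card_union_le _ _)
    have h2 : ((Ms T a b).card : ℝ) < m := ha'.1
    have h3 : ((Ms T a b').card : ℝ) < m := ha'.2.1
    linarith

end Pool.Agent.N601.LP4
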