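import Pool.Agent.N601.LP4.B

set_option autoImplicit false
open Finset
open scoped Classical

namespace Pool.Agent.N601.LP4

variable {V : Type} [Fintype V]

/-- The degree in the graph of almost full pairs. -/
noncomputable def dg (T : V → V → V → Prop) (m : ℝ) (x : V) : ℕ :=
  (univ.filter fun y => g T m x y).card

lemma card_big {T : V → V → V → Prop} (hT : K4Free T) {m t : ℝ} (hm : 0 ≤ m) (ht : 0 < t)
    (hn : 0 < (Fintype.card V : ℝ)) :
    ((univ.filter fun x => t < (dg T m x : ℝ)).card : ℝ) ≤ 4 * m * Fintype.card V / t := by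
  have h1 := card_GS hT hm (Nat.cast_nonneg (Fintype.card V)) univ (fun x _ => by
    have : ((univ.filter fun y => g T m x y).card : ℝ) ≤ (Fintype.card V : ℝ) := by
      exact_mod_cast Finset.card_le_univ _
    exact this)
  have h2 : ∑ x : V, (dg T m x : ℝ) = ((GS T m univ).card : ℝ) := by
    have : (GS T m univ).card = ∑ x : V, dg T m x := by
      rw [GS, Finset.card_filter, Finset.sum_product]
      refine Finset.sum_congr rfl fun x _ => ?_
      rw [dg, Finset.card_filter]
    rw [this]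
    push_cast
    rfl
  rw [le_div_iff₀ ht]
  calc ((univ.filter fun x => t < (dg T m x : ℝ)).card : ℝ) * t
      = ∑ _x ∈ univ.filter fun x => t < (dg T m x : ℝ), t := by
        rw [Finset.sum_const, nsmul_eq_mul]
    _ ≤ ∑ x ∈ univ.filter fun x => t < (dg T m x : ℝ), (dg T m x : ℝ) :=
        Finset.sum_le_sum fun x hx => (mem_filter.mp hx).2.le
    _ ≤ ∑ x : V, (dg T m x : ℝ) :=
        Finset.sum_le_sum_of_subset_of_nonneg (Finset.filter_subset _ _)
          fun _ _ _ => Nat.cast_nonneg _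
    _ ≤ _ := by rw [h2]; exact h1

/-- The upper bound with free parameters. -/
theorem main_abs {T : V → V → V → Prop} (hT : K4Free T) {s τ p : ℝ} (hs : 0 < s) (hs1 : s ≤ 1)
    (hτ : 0 < τ) (hp : 1 ≤ p) (hn : 0 < (Fintype.card V : ℝ)) :
    ∑ x : V, ∑ y : V, ((cd T x y : ℝ) / Fintype.card V) ^ p ≤
      (Fintype.card V : ℝ) ^ 2 * ((1 - s) ^ p + 4 * s * τ + 2 / (Real.exp 1 * p) +
        64 * p * s ^ 3 / τ ^ 2) := by
  set n : ℝ := (Fintype.card V : ℝ) with hnd
  set m : ℝ := s * n with hmd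
  have hm : 0 ≤ m := by positivity
  set L : Finset V := univ.filter fun x => ¬ (τ * n < (dg T m x : ℝ)) with hL
  set B : Finset V := univ.filter fun x => τ * n < (dg T m x : ℝ) with hB
  have hBc : (B.card : ℝ) ≤ 4 * s * n / τ := by
    have h := card_big hT hm (t := τ * n) (by positivity) hn
    rw [← hnd, ← hB] at h
    refine h.trans (le_of_eq ?_)
    rw [hmd]
    field_simp
  have hLc : ((GS T m L).card : ℝ) ≤ 4 * s * τ * n ^ 2 := by
    have h := card_GS hT hm (Δ := τ * n) (by positivity) L (fun x hx => by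
      have h1 : (dg T m x : ℝ) ≤ τ * n := not_lt.mp (mem_filter.mp hx).2
      refine le_trans ?_ h1
      unfold dg
      exact_mod_cast Finset.card_le_card (Finset.filter_subset_filter _ (Finset.subset_univ _)))
    refine h.trans (le_of_eq ?_)
    rw [hmd]
    ring
  -- pointwise
  have hpt : ∀ x y : V, ((cd T x y : ℝ) / n) ^ p ≤ (1 - s) ^ p +
      (if (x, y) ∈ GS T m L then (1 : ℝ) else 0) +
      (if y ∈ Ba T m B x then ((cd T x y : ℝ) / n) ^ p else 0) +
      (if x ∈ Ba T m B y then ((cd T y x : ℝ) / n) ^ p else 0) := by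
    intro x y
    have hcn := cd_add_Ms T x y
    rw [← hnd] at hcn
    have hc0 : (0 : ℝ) ≤ cd T x y := Nat.cast_nonneg _
    have hM0 : (0 : ℝ) ≤ (Ms T x y).card := Nat.cast_nonneg _
    have a1 : 0 ≤ (1 - s) ^ p := Real.rpow_nonneg (by linarith) p
    have a2 : (0 : ℝ) ≤ if (x, y) ∈ GS T m L then (1 : ℝ) else 0 := by split_ifs <;> norm_num
    have a3 : (0 : ℝ) ≤ if y ∈ Ba T m B x then ((cd T x y : ℝ) / n) ^ p else 0 := by
      split_ifs
      · positivity
      · exact le_refl _
    have a4 : (0 : ℝ) ≤ if x ∈ Ba T m B y then ((cd T y x : ℝ) / n) ^ p else 0 := by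
      split_ifs
      · positivity
      · exact le_refl _
    by_cases hg : g T m x y
    · by_cases hy : y ∈ B
      · have : y ∈ Ba T m B x := mem_filter.mpr ⟨hy, hg⟩
        rw [if_pos this] at a3 ⊢
        linarith
      · by_cases hx : x ∈ B
        · have : x ∈ Ba T m B y := mem_filter.mpr ⟨hx, g_comm hT m hg⟩
          rw [if_pos this] at a4 ⊢
          rw [cd_comm hT y x] at a4 ⊢
          linarith
        · have hxL : x ∈ L := by
            rw [hL, mem_filter]
            refine ⟨mem_univ _, fun h => hx ?_⟩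
            rw [hB, mem_filter]
            exact ⟨mem_univ _, h⟩
          have hyL : y ∈ L := by
            rw [hL, mem_filter]
            refine ⟨mem_univ _, fun h => hy ?_⟩
            rw [hB, mem_filter]
            exact ⟨mem_univ _, h⟩
          have : (x, y) ∈ GS T m L := mem_filter.mpr ⟨mem_product.mpr ⟨hxL, hyL⟩, hg⟩
          rw [if_pos this]
          have h1 : ((cd T x y : ℝ) / n) ^ p ≤ 1 := by
            refine Real.rpow_le_one (by positivity) ?_ (by linarith)
            rw [div_le_one hn]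
            linarith
          linarith
    · have h1 : ((cd T x y : ℝ) / n) ^ p ≤ (1 - s) ^ p := by
        refine Real.rpow_le_rpow (by positivity) ?_ (by linarith)
        rw [div_le_iff₀ hn]
        unfold g at hg
        rw [not_lt] at hg
        rw [hmd] at hg
        linarith
      linarith
  have hsum1 : ∑ _x : V, ∑ _y : V, (1 - s) ^ p = n ^ 2 * (1 - s) ^ p := by
    rw [Finset.sum_const, Finset.sum_const, nsmul_eq_mul, nsmul_eq_mul, Finset.card_univ, ← hnd]
    ring
  have hsum2 : ∑ x : V, ∑ y : V, (if (x, y) ∈ GS T m L then (1 : ℝ) else 0) =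
      ((GS T m L).card : ℝ) := by
    rw [← Finset.sum_product', Finset.sum_boole]
    congr 2
    ext e
    simp
  have hsum3 : ∑ x : V, ∑ y : V, (if y ∈ Ba T m B x then ((cd T x y : ℝ) / n) ^ p else 0) ≤
      n ^ 2 * (1 / (Real.exp 1 * p)) + p * (2 * m * (B.card : ℝ) ^ 2) / n := by
    refine le_trans (le_of_eq ?_) (sum_B hT hm hp hn B)
    refine Finset.sum_congr rfl fun x _ => ?_
    rw [Finset.sum_ite_mem, Finset.univ_inter]
  have hsum4 : ∑ x : V, ∑ y : V, (if x ∈ Ba T m B y then ((cd T y x : ℝ) / n) ^ p else 0) ≤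
      n ^ 2 * (1 / (Real.exp 1 * p)) + p * (2 * m * (B.card : ℝ) ^ 2) / n := by
    rw [Finset.sum_comm]
    exact hsum3
  have hBsq : (B.card : ℝ) ^ 2 ≤ (4 * s * n / τ) ^ 2 :=
    pow_le_pow_left₀ (Nat.cast_nonneg _) hBc 2
  have hlast : p * (2 * m * (B.card : ℝ) ^ 2) / n ≤ n ^ 2 * (32 * p * s ^ 3 / τ ^ 2) := by
    calc p * (2 * m * (B.card : ℝ) ^ 2) / n ≤ p * (2 * m * (4 * s * n / τ) ^ 2) / n := by
          gcongr
      _ = n ^ 2 * (32 * p * s ^ 3 / τ ^ 2) := by
          rw [hmd]
          field_simp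
          ring
  calc ∑ x : V, ∑ y : V, ((cd T x y : ℝ) / n) ^ p
      ≤ ∑ x : V, ∑ y : V, ((1 - s) ^ p + (if (x, y) ∈ GS T m L then (1 : ℝ) else 0) +
      (if y ∈ Ba T m B x then ((cd T x y : ℝ) / n) ^ p else 0) +
      (if x ∈ Ba T m B y then ((cd T y x : ℝ) / n) ^ p else 0)) :=
        Finset.sum_le_sum fun x _ => Finset.sum_le_sum fun y _ => hpt x y
    _ = ∑ _x : V, ∑ _y : V, (1 - s) ^ p +
        ∑ x : V, ∑ y : V, (if (x, y) ∈ GS T m L then (1 : ℝ) else 0) +
        ∑ x : V, ∑ y : V, (if y ∈ Ba T m B x then ((cd T x y : ℝ) / n) ^ p else 0) +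
        ∑ x : V, ∑ y : V, (if x ∈ Ba T m B y then ((cd T y x : ℝ) / n) ^ p else 0) := by
        simp only [Finset.sum_add_distrib]
    _ ≤ n ^ 2 * (1 - s) ^ p + 4 * s * τ * n ^ 2 +
        (n ^ 2 * (1 / (Real.exp 1 * p)) + n ^ 2 * (32 * p * s ^ 3 / τ ^ 2)) +
        (n ^ 2 * (1 / (Real.exp 1 * p)) + n ^ 2 * (32 * p * s ^ 3 / τ ^ 2)) := by
        rw [hsum1, hsum2]
        linarith
    _ = _ := by ring

end Pool.Agent.N601.LP4
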