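import Pool.Agent.N601.LP4.C

set_option autoImplicit false
open Finset Filter Topology
open scoped Classical

namespace Pool.Agent.N601.LP4

/-- The upper bound, parameters chosen. -/
theorem main_abs' {V : Type} [Fintype V] {T : V → V → V → Prop} (hT : K4Free T) {p : ℝ}
    (hp : 3 ≤ p) (hn : 0 < (Fintype.card V : ℝ)) :
    ∑ x : V, ∑ y : V, ((cd T x y : ℝ) / Fintype.card V) ^ p ≤
      (Fintype.card V : ℝ) ^ 2 * (2 / (Real.exp 1 * p) +
        32 * Real.log p ^ (5 / 3 : ℝ) * p ^ (-(4 / 3) : ℝ)) := by
  have hp0 : 0 < p := by linarith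
  set l : ℝ := Real.log p with hl
  have hl1 : 1 ≤ l := by
    rw [hl, Real.le_log_iff_exp_le hp0]
    have := Real.exp_one_lt_d9
    linarith
  have hl0 : 0 < l := by linarith
  set s : ℝ := 4 / 3 * l / p with hs
  have hs0 : 0 < s := by positivity
  have hs1 : s ≤ 1 := by
    rw [hs, div_le_one hp0]
    have h1 : Real.log (p / 2) ≤ p / 2 - 1 := Real.log_le_sub_one_of_pos (by positivity)
    have h2 : Real.log (p / 2) = l - Real.log 2 := Real.log_div (by positivity) (by norm_num)
    have h3 := Real.log_two_lt_d9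
    linarith
  -- the cube root
  set a : ℝ := l ^ (1 / 3 : ℝ) with ha
  set b : ℝ := p ^ (-(1 / 3) : ℝ) with hb
  have ha0 : 0 < a := Real.rpow_pos_of_pos hl0 _
  have hb0 : 0 < b := Real.rpow_pos_of_pos hp0 _
  have ha3 : a ^ 3 = l := by
    rw [ha, ← Real.rpow_natCast, ← Real.rpow_mul hl0.le]
    norm_num
  have hb3 : b ^ 3 * p = 1 := by
    rw [hb, ← Real.rpow_natCast, ← Real.rpow_mul hp0.le]
    norm_num
    rw [Real.rpow_neg_one]
    field_simp
  have ha5 : l ^ (5 / 3 : ℝ) = a ^ 5 := by
    rw [ha, ← Real.rpow_natCast, ← Real.rpow_mul hl0.le]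
    norm_num
  have hb4 : p ^ (-(4 / 3) : ℝ) = b ^ 4 := by
    rw [hb, ← Real.rpow_natCast, ← Real.rpow_mul hp0.le]
    norm_num
  have hpb : p = 1 / b ^ 3 := by
    field_simp
    linarith
  have hsb : s = 4 / 3 * a ^ 3 * b ^ 3 := by
    rw [hs, ← ha3, hpb]
    field_simp
  have ha1 : 1 ≤ a := by
    rw [ha]
    exact Real.one_le_rpow hl1 (by norm_num)
  have hmain := main_abs hT hs0 hs1 (τ := 4 * a ^ 2 * b) (by positivity) (p := p) (by linarith) hn
  refine hmain.trans (mul_le_mul_of_nonneg_left ?_ (by positivity))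
  have e1 : (1 - s) ^ p ≤ b ^ 4 := by
    have h1 : (1 - s) ^ p ≤ Real.exp (-s) ^ p :=
      Real.rpow_le_rpow (by linarith) (by linarith [Real.add_one_le_exp (-s)]) hp0.le
    refine h1.trans (le_of_eq ?_)
    rw [← Real.exp_mul, ← hb4, Real.rpow_def_of_pos hp0, ← hl]
    congr 1
    rw [hs]
    field_simp
  have e2 : 4 * s * (4 * a ^ 2 * b) = 64 / 3 * (a ^ 5 * b ^ 4) := by
    rw [hsb]
    ring
  have e3 : 64 * p * s ^ 3 / (4 * a ^ 2 * b) ^ 2 = 256 / 27 * (a ^ 5 * b ^ 4) := by
    rw [hsb, hpb]
    field_simp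
    ring
  have e4 : b ^ 4 ≤ a ^ 5 * b ^ 4 := by
    have : 1 ≤ a ^ 5 := one_le_pow₀ ha1
    have hb4' : 0 ≤ b ^ 4 := by positivity
    nlinarith
  rw [e2, e3, ha5, hb4]
  have e5 : 0 ≤ a ^ 5 * b ^ 4 := by positivity
  nlinarith

/-- No four vertices span all four triples. -/
def CliqueFree {n : ℕ} (H : Finset (Finset (Fin n))) : Prop :=
  ∀ Q : Finset (Fin n), Q.card = 4 → ∃ e ⊆ Q, e.card = 3 ∧ e ∉ H

/-- The codegree. -/
noncomputable def codegree {n : ℕ} (H : Finset (Finset (Fin n))) (x y : Fin n) : ℕ :=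
  (univ.filter fun z => {x, y, z} ∈ H).card

/-- The sum of the powers of the codegrees. -/
noncomputable def powerSum {n : ℕ} (p : ℝ) (H : Finset (Finset (Fin n))) : ℝ :=
  ∑ x : Fin n, ∑ y : Fin n, (codegree H x y : ℝ) ^ p

lemma k4free_of {n : ℕ} {H : Finset (Finset (Fin n))} (h3 : ∀ e ∈ H, e.card = 3)
    (hF : CliqueFree H) : K4Free (fun x y z : Fin n => ({x, y, z} : Finset (Fin n)) ∈ H) where
  swap := by
    intro x y z h
    rwa [show ({y, x, z} : Finset (Fin n)) = {x, y, z} from Finset.insert_comm y x {z}]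
  rot := by
    intro x y z h
    have : ({y, z, x} : Finset (Fin n)) = {x, y, z} := by
      ext a
      simp only [mem_insert, mem_singleton]
      tauto
    rwa [this]
  irr := by
    intro x z h
    have h1 := h3 _ h
    have h2 : ({x, x, z} : Finset (Fin n)).card ≤ 2 := by
      rw [show ({x, x, z} : Finset (Fin n)) = {x, z} from by simp]
      exact Finset.card_le_two
    omega
  free := by
    intro x y z w h1 h2 h3' h4
    have c1 := h3 _ h1
    have c2 := h3 _ h2
    have c3 := h3 _ h3'
    have c4 := h3 _ h4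
    have d : ∀ u v t : Fin n, ({u, v, t} : Finset (Fin n)).card = 3 → u ≠ v ∧ u ≠ t ∧ v ≠ t := by
      intro u v t h
      exact Finset.card_eq_three.mp h |> fun ⟨a, b, c, hab, hac, hbc, he⟩ => by
        refine ⟨?_, ?_, ?_⟩
        · rintro rfl
          have : ({u, u, t} : Finset (Fin n)).card ≤ 2 := by
            rw [show ({u, u, t} : Finset (Fin n)) = {u, t} from by simp]
            exact Finset.card_le_two
          omega
        · rintro rfl
          have : ({u, v, u} : Finset (Fin n)).card ≤ 2 := by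
            rw [show ({u, v, u} : Finset (Fin n)) = {u, v} from by
              ext a; simp only [mem_insert, mem_singleton]; tauto]
            exact Finset.card_le_two
          omega
        · rintro rfl
          have : ({u, v, v} : Finset (Fin n)).card ≤ 2 := by
            rw [show ({u, v, v} : Finset (Fin n)) = {u, v} from by simp]
            exact Finset.card_le_two
          omega
    obtain ⟨q1, q2, q3⟩ := d _ _ _ c1
    obtain ⟨_, q4, q5⟩ := d _ _ _ c2
    obtain ⟨_, _, q6⟩ := d _ _ _ c3
    have hQ : ({x, y, z, w} : Finset (Fin n)).card = 4 := by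
      rw [Finset.card_insert_of_notMem, Finset.card_insert_of_notMem, Finset.card_insert_of_notMem,
        Finset.card_singleton]
      · simpa using q6
      · simp [q3, q5]
      · simp [q1, q2, q4]
    obtain ⟨e, he, he3, heH⟩ := hF _ hQ
    -- `e` misses exactly one of the four
    apply heH
    have hmiss : ∃ u ∈ ({x, y, z, w} : Finset (Fin n)), u ∉ e := by
      by_contra hc
      push Not at hc
      have := Finset.card_le_card (show ({x, y, z, w} : Finset (Fin n)) ⊆ e from hc)
      omega
    obtain ⟨u, hu, hue⟩ := hmiss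
    have heq : e = ({x, y, z, w} : Finset (Fin n)).erase u := by
      refine Finset.eq_of_subset_of_card_le ?_ ?_
      · intro v hv
        rw [mem_erase]
        exact ⟨fun h => hue (h ▸ hv), he hv⟩
      · rw [Finset.card_erase_of_mem hu, hQ, he3]
    rw [heq]
    simp only [mem_insert, mem_singleton] at hu
    rcases hu with rfl | rfl | rfl | rfl
    · convert h4 using 1
      ext v
      simp only [mem_erase, mem_insert, mem_singleton]
      constructor
      · tauto
      · rintro (rfl | rfl | rfl) <;> simp [q1.symm, q2.symm, q4.symm]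
    · convert h3' using 1
      ext v
      simp only [mem_erase, mem_insert, mem_singleton]
      constructor
      · tauto
      · rintro (rfl | rfl | rfl) <;> simp [q1, q3.symm, q5.symm]
    · convert h2 using 1
      ext v
      simp only [mem_erase, mem_insert, mem_singleton]
      constructor
      · tauto
      · rintro (rfl | rfl | rfl) <;> simp [q2, q3, q6.symm]
    · convert h1 using 1
      ext v
      simp only [mem_erase, mem_insert, mem_singleton]
      constructor
      · tauto
      · rintro (rfl | rfl | rfl) <;> simp [q4, q5, q6]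

/-- **The upper bound.** -/
theorem upper {p : ℝ} (hp : 3 ≤ p) {n : ℕ} {H : Finset (Finset (Fin n))}
    (h3 : ∀ e ∈ H, e.card = 3) (hF : CliqueFree H) :
    powerSum p H ≤ (2 / (Real.exp 1 * p) +
        32 * Real.log p ^ (5 / 3 : ℝ) * p ^ (-(4 / 3) : ℝ)) * (n : ℝ) ^ (p + 2) := by
  rcases Nat.eq_zero_or_pos n with rfl | hn
  · unfold powerSum
    simp only [Finset.univ_eq_empty, Finset.sum_empty, Nat.cast_zero]
    rw [Real.zero_rpow (by linarith)]
    simp
  · have hn' : (0 : ℝ) < n := by exact_mod_cast hn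
    have h := main_abs' (k4free_of h3 hF) hp (by rw [Fintype.card_fin]; exact hn')
    rw [Fintype.card_fin] at h
    have h2 : powerSum p H = (n : ℝ) ^ p *
        ∑ x : Fin n, ∑ y : Fin n, ((cd (fun x y z : Fin n => ({x, y, z} : Finset (Fin n)) ∈ H) x y : ℝ) / n) ^ p := by
      unfold powerSum
      rw [Finset.mul_sum]
      refine Finset.sum_congr rfl fun x _ => ?_
      rw [Finset.mul_sum]
      refine Finset.sum_congr rfl fun y _ => ?_
      rw [Real.div_rpow (Nat.cast_nonneg _) hn'.le]
      have : (n : ℝ) ^ p ≠ 0 := (Real.rpow_pos_of_pos hn' p).ne'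
      rw [mul_div_cancel₀ _ this]
      congr 2
      unfold codegree cd
      congr
    rw [h2, Real.rpow_add hn', Real.rpow_two]
    calc _ ≤ (n : ℝ) ^ p * ((n : ℝ) ^ 2 * (2 / (Real.exp 1 * p) +
        32 * Real.log p ^ (5 / 3 : ℝ) * p ^ (-(4 / 3) : ℝ))) :=
          mul_le_mul_of_nonneg_left h (Real.rpow_nonneg hn'.le p)
      _ = _ := by ring

end Pool.Agent.N601.LP4
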