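import Pool.Agent.N601.LP4.D

set_option autoImplicit false
open Finset Filter Topology
open scoped Classical

namespace Pool.Agent.N601.LP4

/-- The triples with exactly one vertex among the first `m` vertices. -/
noncomputable def oneOf (n m : ℕ) : Finset (Finset (Fin n)) :=
  univ.filter fun e => e.card = 3 ∧ (e.filter fun x => x.val < m).card = 1

lemma oneOf_card (n m : ℕ) : ∀ e ∈ oneOf n m, e.card = 3 := fun _ he => (mem_filter.mp he).2.1

lemma oneOf_free (n m : ℕ) : CliqueFree (oneOf n m) := by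
  intro Q hQ
  by_contra hcon
  push Not at hcon
  set P : Fin n → Prop := fun x => x.val < m with hP
  have hall : ∀ x ∈ Q, ((Q.erase x).filter P).card = 1 := by
    intro x hx
    have h := hcon (Q.erase x) (Finset.erase_subset _ _) (by
      rw [Finset.card_erase_of_mem hx, hQ])
    exact (mem_filter.mp h).2.2
  have hin : ∀ x ∈ Q, P x → (Q.filter P).card = 2 := by
    intro x hx hPx
    have h := hall x hx
    rw [Finset.filter_erase, Finset.card_erase_of_mem (mem_filter.mpr ⟨hx, hPx⟩)] at h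
    have : 0 < (Q.filter P).card := Finset.card_pos.mpr ⟨x, mem_filter.mpr ⟨hx, hPx⟩⟩
    omega
  have hout : ∀ x ∈ Q, ¬ P x → (Q.filter P).card = 1 := by
    intro x hx hPx
    have h := hall x hx
    rwa [Finset.filter_erase, Finset.erase_eq_of_notMem (fun hh => hPx (mem_filter.mp hh).2)] at h
  have hex : ∃ x ∈ Q, ¬ P x := by
    by_contra hc
    push Not at hc
    obtain ⟨x, hx⟩ := Finset.card_pos.mp (by omega : 0 < Q.card)
    have h1 := hin x hx (hc x hx)
    have h2 : Q.filter P = Q := Finset.filter_true_of_mem hc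
    rw [h2] at h1
    omega
  obtain ⟨x, hx, hPx⟩ := hex
  have h1 := hout x hx hPx
  obtain ⟨y, hy⟩ := Finset.card_pos.mp (by omega : 0 < (Q.filter P).card)
  have h2 := hin y (mem_filter.mp hy).1 (mem_filter.mp hy).2
  omega

lemma codegree_oneOf {n m : ℕ} {x y : Fin n} (hx : x.val < m) (hy : m ≤ y.val) :
    (n : ℝ) - m - 1 ≤ (codegree (oneOf n m) x y : ℝ) := by
  have hsub : (univ.filter fun z : Fin n => ¬ z.val < m).erase y ⊆
      univ.filter fun z => ({x, y, z} : Finset (Fin n)) ∈ oneOf n m := by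
    intro z hz
    rw [mem_erase, mem_filter] at hz
    obtain ⟨hzy, _, hzm⟩ := hz
    have hzm' : m ≤ z.val := not_lt.mp hzm
    rw [mem_filter]
    refine ⟨mem_univ _, ?_⟩
    rw [oneOf, mem_filter]
    have hxy : x ≠ y := fun h => by rw [h] at hx; omega
    have hxz : x ≠ z := fun h => by rw [h] at hx; omega
    refine ⟨mem_univ _, ?_, ?_⟩
    · rw [Finset.card_eq_three]
      exact ⟨x, y, z, hxy, hxz, hzy.symm, rfl⟩
    · rw [Finset.card_eq_one]
      refine ⟨x, ?_⟩
      ext v
      simp only [mem_filter, mem_insert, mem_singleton]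
      constructor
      · rintro ⟨rfl | rfl | rfl, h⟩
        · rfl
        · omega
        · omega
      · rintro rfl
        exact ⟨Or.inl rfl, hx⟩
  have h1 := Finset.card_le_card hsub
  have hlt : (univ.filter fun z : Fin n => z.val < m).card ≤ m := by
    have : ((univ.filter fun z : Fin n => z.val < m).image fun z => z.val) ⊆ Finset.range m := by
      intro v hv
      rw [mem_image] at hv
      obtain ⟨z, hz, rfl⟩ := hv
      exact Finset.mem_range.mpr (mem_filter.mp hz).2
    have h := Finset.card_le_card this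
    rwa [Finset.card_image_of_injective _ Fin.val_injective, Finset.card_range] at h
  have h2 := Finset.card_filter_add_card_filter_not (s := (univ : Finset (Fin n)))
    (fun z => z.val < m)
  rw [Finset.card_univ, Fintype.card_fin] at h2
  have hyA : y ∈ (univ.filter fun z : Fin n => ¬ z.val < m) :=
    mem_filter.mpr ⟨mem_univ _, not_lt.mpr hy⟩
  rw [Finset.card_erase_of_mem hyA] at h1
  have h3 : n ≤ codegree (oneOf n m) x y + m + 1 := by
    unfold codegree
    omega
  have h4 : (n : ℝ) ≤ (codegree (oneOf n m) x y : ℝ) + m + 1 := by exact_mod_cast h3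
  linarith

lemma codegree_comm {n : ℕ} (H : Finset (Finset (Fin n))) (x y : Fin n) :
    codegree H x y = codegree H y x := by
  unfold codegree
  congr 1
  ext z
  rw [mem_filter, mem_filter, show ({y, x, z} : Finset (Fin n)) = {x, y, z} from
    Finset.insert_comm y x {z}]

lemma powerSum_oneOf {n m : ℕ} {p : ℝ} (hp : 0 ≤ p) (hm : m + 1 ≤ n) :
    2 * (m : ℝ) * (n - m) * ((n : ℝ) - m - 1) ^ p ≤ powerSum p (oneOf n m) := by
  have hd : (0 : ℝ) ≤ (n : ℝ) - m - 1 := by
    have : (m : ℝ) + 1 ≤ n := by exact_mod_cast hm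
    linarith
  have hcB : ((univ.filter fun z : Fin n => z.val < m).card : ℝ) = m := by
    have : (univ.filter fun z : Fin n => z.val < m) = (univ : Finset (Fin m)).map
        (Fin.castLEEmb (by omega : m ≤ n)) := by
      ext z
      simp only [mem_filter, mem_univ, true_and, Finset.mem_map]
      constructor
      · intro h
        exact ⟨⟨z.val, h⟩, by ext; rfl⟩
      · rintro ⟨a, rfl⟩
        exact a.isLt
    rw [this, Finset.card_map, Finset.card_univ, Fintype.card_fin]
  have hcA : ((univ.filter fun z : Fin n => ¬ z.val < m).card : ℝ) = n - m := by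
    have h2 := Finset.card_filter_add_card_filter_not (s := (univ : Finset (Fin n)))
      (fun z => z.val < m)
    rw [Finset.card_univ, Fintype.card_fin] at h2
    have h3 : ((univ.filter fun z : Fin n => z.val < m).card : ℝ) +
      ((univ.filter fun z : Fin n => ¬ z.val < m).card : ℝ) = n := by exact_mod_cast h2
    linarith
  have hlow : ∀ x y : Fin n, x.val < m → ¬ y.val < m →
      ((n : ℝ) - m - 1) ^ p ≤ (codegree (oneOf n m) x y : ℝ) ^ p := fun x y hx hy =>
    Real.rpow_le_rpow hd (codegree_oneOf hx (not_lt.mp hy)) hp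
  have hpt : ∀ x y : Fin n, (if x.val < m then (if ¬ y.val < m then ((n : ℝ) - m - 1) ^ p else 0) else 0) +
      (if ¬ x.val < m then (if y.val < m then ((n : ℝ) - m - 1) ^ p else 0) else 0) ≤
      (codegree (oneOf n m) x y : ℝ) ^ p := by
    intro x y
    have h0 : (0 : ℝ) ≤ (codegree (oneOf n m) x y : ℝ) ^ p := by positivity
    by_cases hx : x.val < m
    · by_cases hy : y.val < m
      · simp only [hx, hy, not_true_eq_false, if_true, if_false]
        linarith
      · simp only [hx, hy, not_true_eq_false, not_false_eq_true, if_true, if_false, add_zero]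
        exact hlow x y hx hy
    · by_cases hy : y.val < m
      · simp only [hx, hy, not_false_eq_true, if_true, if_false, zero_add]
        rw [codegree_comm]
        exact hlow y x hy hx
      · simp only [hx, hy, not_false_eq_true, if_true, if_false, add_zero]
        exact h0
  have hs1 : ∀ (P Q : Fin n → Prop) [DecidablePred P] [DecidablePred Q] (c : ℝ), ∑ x : Fin n, ∑ y : Fin n,
      (if P x then (if Q y then c else 0) else 0) =
      ((univ.filter P).card : ℝ) * (((univ.filter Q).card : ℝ) * c) := by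
    intro P Q _ _ c
    have : ∀ x : Fin n, ∑ y : Fin n, (if P x then (if Q y then c else 0) else 0) =
        if P x then (((univ.filter Q).card : ℝ) * c) else 0 := by
      intro x
      split_ifs
      · rw [← Finset.sum_filter, Finset.sum_const, nsmul_eq_mul]
      · simp
    rw [Finset.sum_congr rfl fun x _ => this x, ← Finset.sum_filter, Finset.sum_const,
      nsmul_eq_mul]
  calc 2 * (m : ℝ) * (n - m) * ((n : ℝ) - m - 1) ^ p
      = ∑ x : Fin n, ∑ y : Fin n, (if x.val < m then (if ¬ y.val < m then ((n : ℝ) - m - 1) ^ p else 0) else 0) +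
        ∑ x : Fin n, ∑ y : Fin n, (if ¬ x.val < m then (if y.val < m then ((n : ℝ) - m - 1) ^ p else 0) else 0) := by
        rw [hs1 (fun x => x.val < m) (fun y => ¬ y.val < m), hs1 (fun x => ¬ x.val < m) (fun y => y.val < m), hcA, hcB]
        ring
    _ = ∑ x : Fin n, ∑ y : Fin n, ((if x.val < m then (if ¬ y.val < m then ((n : ℝ) - m - 1) ^ p else 0) else 0) +
      (if ¬ x.val < m then (if y.val < m then ((n : ℝ) - m - 1) ^ p else 0) else 0)) := by
        rw [← Finset.sum_add_distrib]
        exact Finset.sum_congr rfl fun x _ => (Finset.sum_add_distrib).symm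
    _ ≤ powerSum p (oneOf n m) := Finset.sum_le_sum fun x _ => Finset.sum_le_sum fun y _ => hpt x y

/-- `2 / (e (p + 2))` is a lower bound for the constant of the construction. -/
lemma const_le {p : ℝ} (hp : 0 < p) : 2 / (Real.exp 1 * (p + 2)) ≤
    2 * (1 / (p + 2)) * (1 - 1 / (p + 2)) * (1 - 1 / (p + 2)) ^ p := by
  have h0 : (0 : ℝ) < 1 - 1 / (p + 2) := by
    rw [sub_pos, div_lt_one (by linarith)]
    linarith
  have h1 : (1 - 1 / (p + 2)) * (1 - 1 / (p + 2)) ^ p = (1 - 1 / (p + 2)) ^ (p + 1) := by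
    rw [Real.rpow_add h0, Real.rpow_one, mul_comm]
  have h2 : (1 - 1 / (p + 2)) = (1 + 1 / (p + 1))⁻¹ := by
    field_simp
    ring
  have h3 : Real.exp (-1) ≤ (1 - 1 / (p + 2)) ^ (p + 1) := by
    rw [h2, Real.inv_rpow (by positivity), Real.exp_neg]
    refine inv_anti₀ (by positivity) ?_
    have h4 : (1 + 1 / (p + 1)) ^ (p + 1) ≤ Real.exp (1 / (p + 1)) ^ (p + 1) :=
      Real.rpow_le_rpow (by positivity) (by linarith [Real.add_one_le_exp (1 / (p + 1))])
        (by linarith)
    refine h4.trans (le_of_eq ?_)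
    rw [← Real.exp_mul]
    congr 1
    field_simp
  calc 2 / (Real.exp 1 * (p + 2)) = 2 * (1 / (p + 2)) * Real.exp (-1) := by
        rw [Real.exp_neg]
        field_simp
    _ ≤ 2 * (1 / (p + 2)) * (1 - 1 / (p + 2)) ^ (p + 1) := by
        refine mul_le_mul_of_nonneg_left h3 (by positivity)
    _ = _ := by rw [← h1]; ring

/-- **The lower bound.** -/
theorem lower {p : ℝ} (hp : 1 ≤ p) {c : ℝ} (hc : c < 2 / (Real.exp 1 * (p + 2))) :
    ∃ N : ℕ, ∀ n : ℕ, N ≤ n → c * (n : ℝ) ^ (p + 2) < powerSum p (oneOf n ⌊(n : ℝ) / (p + 2)⌋₊) := by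
  set β : ℝ := 1 / (p + 2) with hβ
  have hc' : c < 2 * β * (1 - β) * (1 - β) ^ p := lt_of_lt_of_le hc (const_le (by linarith))
  have hβ1 : β ≤ 1 / 3 := by
    rw [hβ]
    exact one_div_le_one_div_of_le (by norm_num) (by linarith)
  have hβ0 : 0 < β := by positivity
  have t1 : Tendsto (fun n : ℕ => ((⌊(n : ℝ) / (p + 2)⌋₊ : ℕ) : ℝ) / n) atTop (𝓝 β) := by
    have h := (tendsto_nat_floor_mul_div_atTop (R := ℝ) (a := β) hβ0.le).comp
      tendsto_natCast_atTop_atTop
    refine h.congr fun n => ?_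
    simp only [Function.comp]
    rw [hβ]
    congr 3
    ring
  have t0 : Tendsto (fun n : ℕ => (1 : ℝ) / n) atTop (𝓝 0) := tendsto_one_div_atTop_nhds_zero_nat
  have t2 : Tendsto (fun n : ℕ => 2 * (((⌊(n : ℝ) / (p + 2)⌋₊ : ℕ) : ℝ) / n) *
      (1 - ((⌊(n : ℝ) / (p + 2)⌋₊ : ℕ) : ℝ) / n) *
      (1 - ((⌊(n : ℝ) / (p + 2)⌋₊ : ℕ) : ℝ) / n - 1 / n) ^ p) atTop
      (𝓝 (2 * β * (1 - β) * (1 - β - 0) ^ p)) := by
    refine Tendsto.mul (Tendsto.mul (Tendsto.mul tendsto_const_nhds t1) (tendsto_const_nhds.sub t1)) ?_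
    exact ((tendsto_const_nhds.sub t1).sub t0).rpow_const (Or.inr (by linarith))
  rw [sub_zero] at t2
  have hev := t2.eventually (lt_mem_nhds hc')
  rw [eventually_atTop] at hev
  obtain ⟨N, hN⟩ := hev
  refine ⟨max N 3, fun n hn => ?_⟩
  have hn1 : N ≤ n := le_trans (le_max_left _ _) hn
  have hn2 : 3 ≤ n := le_trans (le_max_right _ _) hn
  have hn0 : (0 : ℝ) < n := by
    have : 0 < n := by omega
    exact_mod_cast this
  set m : ℕ := ⌊(n : ℝ) / (p + 2)⌋₊ with hm
  have hmle : m + 1 ≤ n := by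
    have h1 : (m : ℝ) ≤ (n : ℝ) / (p + 2) := Nat.floor_le (by positivity)
    have h2 : (n : ℝ) / (p + 2) ≤ n / 3 := by
      refine div_le_div_of_nonneg_left hn0.le (by norm_num) (by linarith)
    have h3 : (3 : ℝ) ≤ n := by exact_mod_cast hn2
    have h4 : (m : ℝ) + 1 ≤ n := by linarith
    exact_mod_cast h4
  have h := hN n hn1
  refine lt_of_lt_of_le ?_ (powerSum_oneOf (p := p) (by linarith) hmle)
  have hd : (0 : ℝ) ≤ (n : ℝ) - m - 1 := by
    have : (m : ℝ) + 1 ≤ n := by exact_mod_cast hmle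
    linarith
  have e : 2 * (m : ℝ) * (n - m) * ((n : ℝ) - m - 1) ^ p =
      (2 * ((m : ℝ) / n) * (1 - (m : ℝ) / n) * (1 - (m : ℝ) / n - 1 / n) ^ p) * (n : ℝ) ^ (p + 2) := by
    have e1 : (1 - (m : ℝ) / n - 1 / n) = ((n : ℝ) - m - 1) / n := by
      field_simp
    rw [e1, Real.div_rpow hd hn0.le, Real.rpow_add hn0, Real.rpow_two]
    have : (n : ℝ) ^ p ≠ 0 := (Real.rpow_pos_of_pos hn0 p).ne'
    field_simp
  rw [e]
  exact mul_lt_mul_of_pos_right h (Real.rpow_pos_of_pos hn0 _)

end Pool.Agent.N601.LP4
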