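import Pool.Agent.N601.LP4.E

set_option autoImplicit false
open Finset Filter Topology
open scoped Classical

namespace Pool.Agent.N601.LP4

/-- The extremal constant in the norm `ℓ_p`. -/
noncomputable def density (p : ℝ) : ℝ :=
  sSup {r : ℝ | ∃ (n : ℕ) (H : Finset (Finset (Fin n))), 0 < n ∧ (∀ e ∈ H, e.card = 3) ∧
    CliqueFree H ∧ r = powerSum p H / (n : ℝ) ^ (p + 2)}

lemma density_upper {p : ℝ} (hp : 3 ≤ p) : density p ≤ 2 / (Real.exp 1 * p) +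
    32 * Real.log p ^ (5 / 3 : ℝ) * p ^ (-(4 / 3) : ℝ) := by
  refine Real.sSup_le ?_ ?_
  · rintro r ⟨n, H, hn, h3, hF, rfl⟩
    have hn0 : (0 : ℝ) < n := by exact_mod_cast hn
    rw [div_le_iff₀ (Real.rpow_pos_of_pos hn0 _)]
    exact upper hp h3 hF
  · have : 0 ≤ Real.log p := Real.log_nonneg (by linarith)
    positivity

lemma density_lower {p : ℝ} (hp : 3 ≤ p) : 2 / (Real.exp 1 * (p + 2)) ≤ density p := by
  refine le_of_forall_lt fun c hc => ?_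
  obtain ⟨d, hcd, hd⟩ := exists_between hc
  obtain ⟨N, hN⟩ := lower (p := p) (by linarith) hd
  refine lt_of_lt_of_le hcd ?_
  have hn0 : (0 : ℝ) < ((N + 1 : ℕ) : ℝ) := by positivity
  have h := hN (N + 1) (by omega)
  refine le_trans ?_ (le_csSup ?_ ⟨N + 1, oneOf (N + 1) ⌊((N + 1 : ℕ) : ℝ) / (p + 2)⌋₊, by omega,
    oneOf_card _ _, oneOf_free _ _, rfl⟩)
  · rw [le_div_iff₀ (Real.rpow_pos_of_pos hn0 _)]
    exact h.le
  · refine ⟨2 / (Real.exp 1 * p) + 32 * Real.log p ^ (5 / 3 : ℝ) * p ^ (-(4 / 3) : ℝ), ?_⟩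
    rintro r ⟨n, H, hn, h3, hF, rfl⟩
    have hn0 : (0 : ℝ) < n := by exact_mod_cast hn
    rw [div_le_iff₀ (Real.rpow_pos_of_pos hn0 _)]
    exact upper hp h3 hF

/-- **The limit.** -/
theorem density_tendsto :
    Tendsto (fun p : ℝ => p * density p) atTop (𝓝 (2 / Real.exp 1)) := by
  have h1 : Tendsto (fun p : ℝ => p * (2 / (Real.exp 1 * (p + 2)))) atTop (𝓝 (2 / Real.exp 1)) := by
    have h2 : Tendsto (fun p : ℝ => 2 / Real.exp 1 - 2 / Real.exp 1 * 2 * (p + 2)⁻¹) atTop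
        (𝓝 (2 / Real.exp 1 - 2 / Real.exp 1 * 2 * 0)) := by
      refine tendsto_const_nhds.sub (tendsto_const_nhds.mul ?_)
      exact tendsto_inv_atTop_zero.comp (tendsto_atTop_add_const_right _ _ tendsto_id)
    rw [mul_zero, sub_zero] at h2
    refine h2.congr' ?_
    filter_upwards [eventually_gt_atTop 0] with p hp
    field_simp
    ring
  have h3 : Tendsto (fun p : ℝ => p * (2 / (Real.exp 1 * p) +
      32 * Real.log p ^ (5 / 3 : ℝ) * p ^ (-(4 / 3) : ℝ))) atTop (𝓝 (2 / Real.exp 1)) := by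
    have h4 : Tendsto (fun p : ℝ => Real.log p ^ (5 / 3 : ℝ) / p ^ (1 / 3 : ℝ)) atTop (𝓝 0) :=
      (isLittleO_log_rpow_rpow_atTop (5 / 3) (by norm_num : (0 : ℝ) < 1 / 3)).tendsto_div_nhds_zero
    have h5 : Tendsto (fun p : ℝ => 2 / Real.exp 1 + 32 * (Real.log p ^ (5 / 3 : ℝ) /
        p ^ (1 / 3 : ℝ))) atTop (𝓝 (2 / Real.exp 1 + 32 * 0)) :=
      tendsto_const_nhds.add (tendsto_const_nhds.mul h4)
    rw [mul_zero, add_zero] at h5
    refine h5.congr' ?_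
    filter_upwards [eventually_gt_atTop 0] with p hp
    have h6 : p ^ (-(4 / 3) : ℝ) * p = (p ^ (1 / 3 : ℝ))⁻¹ := by
      rw [← Real.rpow_neg hp.le]
      nth_rewrite 2 [← Real.rpow_one p]
      rw [← Real.rpow_add hp]
      norm_num
    have h7 : p * (32 * Real.log p ^ (5 / 3 : ℝ) * p ^ (-(4 / 3) : ℝ)) =
        32 * (Real.log p ^ (5 / 3 : ℝ) / p ^ (1 / 3 : ℝ)) := by
      rw [show Real.log p ^ (5 / 3 : ℝ) / p ^ (1 / 3 : ℝ) =
        Real.log p ^ (5 / 3 : ℝ) * (p ^ (1 / 3 : ℝ))⁻¹ from div_eq_mul_inv _ _, ← h6]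
      ring
    rw [mul_add, h7]
    congr 1
    field_simp
  refine tendsto_of_tendsto_of_tendsto_of_le_of_le' h1 h3 ?_ ?_
  · filter_upwards [eventually_ge_atTop 3] with p hp
    exact mul_le_mul_of_nonneg_left (density_lower hp) (by linarith)
  · filter_upwards [eventually_ge_atTop 3] with p hp
    exact mul_le_mul_of_nonneg_left (density_upper hp) (by linarith)

/-- The constant of the balanced construction is smaller for `p ≥ 5`. -/
theorem balanced_lt {p : ℝ} (hp : 5 ≤ p) :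
    (2 / 3 : ℝ) ^ (p + 1) + (1 / 3 : ℝ) ^ (p + 1) < 2 / (Real.exp 1 * (p + 2)) := by
  set t : ℝ := p - 5 with ht
  have ht0 : 0 ≤ t := by linarith
  have e1 : (2 / 3 : ℝ) ^ (p + 1) = (2 / 3 : ℝ) ^ (6 : ℕ) * (2 / 3 : ℝ) ^ t := by
    rw [← Real.rpow_natCast, ← Real.rpow_add (by norm_num)]
    congr 1
    push_cast
    rw [ht]
    ring
  have e2 : (1 / 3 : ℝ) ^ (p + 1) ≤ (1 / 3 : ℝ) ^ (6 : ℕ) * (2 / 3 : ℝ) ^ t := by
    have h : (1 / 3 : ℝ) ^ (p + 1) = (1 / 3 : ℝ) ^ (6 : ℕ) * (1 / 3 : ℝ) ^ t := by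
      rw [← Real.rpow_natCast, ← Real.rpow_add (by norm_num)]
      congr 1
      push_cast
      rw [ht]
      ring
    rw [h]
    refine mul_le_mul_of_nonneg_left ?_ (by positivity)
    exact Real.rpow_le_rpow (by norm_num) (by norm_num) ht0
  have e3 : (2 / 3 : ℝ) ^ t * (p + 2) ≤ 7 := by
    have hb : 1 + t * (1 / 2) ≤ (1 + 1 / 2 : ℝ) ^ t ∨ t < 1 := by
      rcases lt_or_ge t 1 with h | h
      · exact Or.inr h
      · exact Or.inl (one_add_mul_self_le_rpow_one_add (by norm_num) h)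
    have h1 : (2 / 3 : ℝ) ^ t = ((3 / 2 : ℝ) ^ t)⁻¹ := by
      rw [← Real.inv_rpow (by norm_num)]
      norm_num
    have hpos : (0 : ℝ) < (3 / 2 : ℝ) ^ t := Real.rpow_pos_of_pos (by norm_num) _
    have h2 : p + 2 ≤ 7 * (3 / 2 : ℝ) ^ t := by
      have hexp : 1 + t * Real.log (3 / 2) ≤ (3 / 2 : ℝ) ^ t := by
        rw [Real.rpow_def_of_pos (by norm_num)]
        have := Real.add_one_le_exp (Real.log (3 / 2) * t)
        linarith
      have hlog : (1 : ℝ) / 7 ≤ Real.log (3 / 2) := by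
        have := Real.one_sub_inv_le_log_of_pos (show (0 : ℝ) < 3 / 2 by norm_num)
        norm_num at this
        linarith
      have : t * (1 / 7) ≤ t * Real.log (3 / 2) := mul_le_mul_of_nonneg_left hlog ht0
      have hpt : p + 2 = 7 + t := by rw [ht]; ring
      rw [hpt]
      linarith
    rw [h1, inv_mul_le_iff₀ hpos]
    linarith
  have he := Real.exp_one_lt_d9
  have he0 : 0 < Real.exp 1 := Real.exp_pos 1
  rw [lt_div_iff₀ (by positivity)]
  have h4 : ((2 / 3 : ℝ) ^ (p + 1) + (1 / 3 : ℝ) ^ (p + 1)) * (Real.exp 1 * (p + 2)) ≤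
      (65 / 729) * (Real.exp 1) * ((2 / 3 : ℝ) ^ t * (p + 2)) := by
    have h5 : (2 / 3 : ℝ) ^ (p + 1) + (1 / 3 : ℝ) ^ (p + 1) ≤ 65 / 729 * (2 / 3 : ℝ) ^ t := by
      rw [e1]
      have : (2 / 3 : ℝ) ^ 6 * (2 / 3 : ℝ) ^ t + (1 / 3 : ℝ) ^ 6 * (2 / 3 : ℝ) ^ t =
          65 / 729 * (2 / 3 : ℝ) ^ t := by ring
      linarith
    calc _ ≤ (65 / 729 * (2 / 3 : ℝ) ^ t) * (Real.exp 1 * (p + 2)) :=
          mul_le_mul_of_nonneg_right h5 (by positivity)
      _ = _ := by ring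
  have h6 : (65 / 729) * (Real.exp 1) * ((2 / 3 : ℝ) ^ t * (p + 2)) ≤ (65 / 729) * (Real.exp 1) * 7 :=
    mul_le_mul_of_nonneg_left e3 (by positivity)
  nlinarith

end Pool.Agent.N601.LP4
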